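import Pool.Agent.X284.GP.Cnt

/-!
# If `α > -∞`, almost the Riemann hypothesis holds

Let `0 < γ_1 ≤ γ_2 ≤ ...` be the ordinates of the nontrivial zeros of zeta in the upper half plane,
repeated according to multiplicity, and `α = liminf log (γ_{n+1} - γ_n) / log n`, `log 0 = -∞`.
If `s` is a zero off the critical line, then `1 - conj s` is another zero with the same ordinate; so
every zero off the line and every multiple zero gives an `n` with `γ_{n+1} = γ_n`.  Hence `α > -∞` (in
particular the conjecture `α > -1`) implies that all but finitely many zeros are simple and lie on the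
critical line; and the same follows from any lower bound `γ_{n+1} > γ_n` for all large `n`.
-/

set_option autoImplicit false

open Filter Topology

namespace Pool.Agent.Results.MP_af3d17_nt.AlphaAndExceptionalZeros

/-- multiplicity of `s` as a zero of the Riemann zeta function (order of vanishing at `s`) -/
noncomputable def zmult (s : ℂ) : ℕ := analyticOrderNatAt riemannZeta s

/-- the number of nontrivial zeros of `ζ` with ordinate in `(0, t]`, with multiplicity -/
noncomputable def NZ (t : ℝ) : ℕ :=
  ∑ᶠ s ∈ {s : ℂ | riemannZeta s = 0 ∧ 0 < s.re ∧ s.re < 1 ∧ 0 < s.im ∧ s.im ≤ t}, zmult s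

/-- for `n ≥ 1`: the `n`-th positive ordinate `γ n` of a nontrivial zero of `ζ`, the ordinates being
listed in nondecreasing order and repeated according to multiplicity -/
noncomputable def γ (n : ℕ) : ℝ := sInf {t : ℝ | n ≤ NZ t}

/-- `log x` for `x > 0`, and `-∞` for `x = 0` -/
noncomputable def elog (x : ℝ) : EReal := if x = 0 then ⊥ else (Real.log x : EReal)

/-- `α = liminf log (γ_{n+1} - γ_n) / log n` -/
noncomputable def alpha : EReal :=
  liminf (fun n : ℕ => elog (γ (n + 1) - γ n) / (Real.log n : EReal)) atTop

/-- the nontrivial zeros in the upper half plane which are off the critical line or multiple -/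
def Exceptional : Set ℂ :=
  {s : ℂ | riemannZeta s = 0 ∧ 0 < s.re ∧ s.re < 1 ∧ 0 < s.im ∧ (s.re ≠ 1 / 2 ∨ 2 ≤ zmult s)}

theorem γ_eq : γ = SG.ord := rfl

/-- an exceptional zero gives two equal ordinates -/
theorem equal {s : ℂ} (hs : s ∈ Exceptional) :
    2 ≤ SG.NZ s.im ∧ SG.ord (SG.NZ s.im - 1 + 1) = SG.ord (SG.NZ s.im - 1) := by
  classical
  obtain ⟨h0, h1, h2, h3, h4⟩ := hs
  have key : ∀ u : ℝ, u < s.im → SG.NZ u + 2 ≤ SG.NZ s.im := by
    intro u hu
    rcases h4 with h4 | h4
    · -- the reflected zero
      set s' : ℂ := 1 - (starRingEnd ℂ) s with hs'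
      have him : s'.im = s.im := by simp [hs']
      have hre : s'.re = 1 - s.re := by simp [hs']
      have hz : s ∈ H370.zset riemannZeta (s.im / 2) s.im := ⟨h1, h2, by linarith, le_rfl, h0⟩
      have hz' : riemannZeta s' = 0 := by
        have h5 : (starRingEnd ℂ) s ≠ 1 := by
          intro h
          have := congrArg Complex.im h
          simp at this
          linarith
        have h6 : ∀ n : ℕ, (starRingEnd ℂ) s ≠ -n := by
          intro n h
          have := congrArg Complex.im h
          simp at this
          linarith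
        rw [hs', riemannZeta_one_sub h6 h5]
        have h7 : riemannZeta ((starRingEnd ℂ) s) = 0 := by
          rw [riemannZeta_conj, h0, map_zero]
        rw [h7, mul_zero]
      have hne : s ≠ s' := by
        intro h
        have := congrArg Complex.re h
        rw [hre] at this
        exact h4 (by linarith)
      have h8 := SG.NZ_add_le u s.im hu.le {s, s'} (by
        intro z hz
        rw [Finset.mem_insert, Finset.mem_singleton] at hz
        rcases hz with rfl | rfl
        · exact ⟨⟨h0, h1, h2, h3, le_rfl⟩, hu⟩
        · refine ⟨⟨hz', ?_, ?_, ?_, ?_⟩, ?_⟩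
          · rw [hre]; linarith
          · rw [hre]; linarith
          · rw [him]; exact h3
          · rw [him]
          · rw [him]; exact hu)
      rw [Finset.sum_pair hne] at h8
      have h9 := SG.zmult_pos h3 h0
      have h10 := SG.zmult_pos (by rw [him]; exact h3) hz'
      omega
    · have h8 := SG.NZ_add_le u s.im hu.le {s} (by
        intro z hz
        rw [Finset.mem_singleton] at hz
        subst hz
        exact ⟨⟨h0, h1, h2, h3, le_rfl⟩, hu⟩)
      rw [Finset.sum_singleton] at h8
      have h9 : 2 ≤ SG.zmult s := h4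
      omega
  have h2' : 2 ≤ SG.NZ s.im := by
    have := key (s.im - 1) (by linarith)
    omega
  obtain ⟨-, h5, -⟩ := Pool.Agent.X284.GP.ord_NZ h0 h1 h2 h3
  refine ⟨h2', ?_⟩
  rw [show SG.NZ s.im - 1 + 1 = SG.NZ s.im by omega, h5]
  have hm : 1 ≤ SG.NZ s.im - 1 := by omega
  have h6 : SG.ord (SG.NZ s.im - 1) ≤ s.im := by
    rw [SG.ord_le_iff hm]
    omega
  refine le_antisymm ?_ h6
  by_contra hlt
  push Not at hlt
  have h7 := key _ hlt
  have h8 := SG.le_NZ_ord hm
  omega

/-- **Main theorem.** If there are infinitely many zeros off the critical line or infinitely many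
multiple zeros, then `γ_{n+1} = γ_n` for infinitely many `n`, and `α = -∞`.  So, if `α > -∞`, or
if `γ_{n+1} > γ_n` for all large `n`, then all nontrivial zeros in the upper half plane with finitely
many exceptions are simple and on the critical line. -/
theorem result :
    (Exceptional.Infinite → (∃ᶠ n : ℕ in atTop, γ (n + 1) = γ n) ∧ alpha = ⊥) ∧
    (alpha ≠ ⊥ → Exceptional.Finite) ∧
    ((∀ᶠ n : ℕ in atTop, γ n < γ (n + 1)) → Exceptional.Finite) := by
  have main : Exceptional.Infinite → (∃ᶠ n : ℕ in atTop, γ (n + 1) = γ n) := by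
    intro hinf
    rw [Nat.frequently_atTop_iff_infinite]
    by_contra hfin
    rw [Set.not_infinite] at hfin
    obtain ⟨B, hB⟩ := hfin.bddAbove
    -- all exceptional zeros have bounded ordinates
    have hsub : Exceptional ⊆ SG.ZS (SG.ord (B + 2)) := by
      intro s hs
      obtain ⟨h1, h2⟩ := equal hs
      have h3 : SG.NZ s.im - 1 ≤ B := hB h2
      refine ⟨hs.1, hs.2.1, hs.2.2.1, hs.2.2.2.1, ?_⟩
      by_contra hlt
      push Not at hlt
      have h4 := SG.le_NZ_ord (n := B + 2) (by omega)
      have h5 := SG.NZ_mono hlt.le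
      omega
    exact hinf ((SG.ZS_finite _).subset hsub)
  have bot : Exceptional.Infinite → alpha = ⊥ := by
    intro hinf
    have h1 := main hinf
    have h2 : ∃ᶠ n : ℕ in atTop, elog (γ (n + 1) - γ n) / (Real.log n : EReal) ≤ ⊥ := by
      refine (h1.and_eventually (eventually_ge_atTop 2)).mono ?_
      rintro n ⟨hn, hn2⟩
      have hl : 0 < Real.log n := Real.log_pos (by exact_mod_cast hn2)
      have h3 : elog (γ (n + 1) - γ n) = ⊥ := by
        unfold elog
        rw [hn, sub_self, if_pos rfl]
      rw [h3, EReal.bot_div_of_pos_ne_top (by exact_mod_cast hl) (EReal.coe_ne_top _)]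
    exact le_bot_iff.1 (liminf_le_of_frequently_le h2)
  refine ⟨fun h => ⟨main h, bot h⟩, fun h => ?_, fun h => ?_⟩
  · by_contra hinf
    exact h (bot hinf)
  · by_contra hinf
    have h1 := main hinf
    refine h1 (h.mono fun n hn he => ?_)
    rw [he] at hn
    exact lt_irrefl _ hn

end Pool.Agent.Results.MP_af3d17_nt.AlphaAndExceptionalZeros
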