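import Pool.Agent.X117.Der4

/-!
# All derivatives of Hardy's function are comparable at the points at which zeta is large

Unconditionally, for `0 < k ≤ 2` and every `m`, over every set `D` that fills a fixed proportion of all intervals of
length `a / log T` in `[T, 2 T]`: the `t ∈ D` with `c (log T) ^ j |Z(t)| ≤ |Z^(j)(t)| ≤ C (log T) ^ j |Z(t)|` for all
`j ≤ m` at once contribute at least `c T (log T) ^ (k ^ 2)` to the `2k`-th moment. Hence the joint moments of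
`Z, Z', ..., Z^(m)` with arbitrary real exponents `b_0, ..., b_m` of sum `B ∈ (0, 4]`, over `D`, are at least
`c T (log T) ^ (B ^ 2 / 4 + ∑ j b_j)`; if all `b_j ≥ 0` this is the exact order.
-/

open Filter Topology Complex MeasureTheory

namespace Pool.Agent.Results.MP_af3d17_nt.ComparableDerivatives

/-- the phase `exp (i ϑ(t))`, with `ϑ(t) = arg Γ(1/4 + i t / 2) - (t / 2) log π` -/
noncomputable def phase (t : ℝ) : ℂ :=
  Gamma (1 / 4 + I * t / 2) / ‖Gamma (1 / 4 + I * t / 2)‖ * cexp (-(I * (t / 2) * Real.log Real.pi))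

/-- Hardy's function `Z(t) = exp (i ϑ(t)) ζ(1/2 + i t)`; the product is real, see `Z_eq` -/
noncomputable def Z (t : ℝ) : ℝ := (phase t * riemannZeta (1 / 2 + I * t)).re

theorem Z_eq (t : ℝ) : ((Z t : ℝ) : ℂ) = phase t * riemannZeta (1 / 2 + I * t) :=
  Pool.Agent.X117.HZ.Z_eq t

/-- the set `D` fills at least the proportion `η` of every interval of length `h` in `[T, 2 T]` -/
def Spread (η h T : ℝ) (D : Set ℝ) : Prop :=
  ∀ x : ℝ, T ≤ x → x + h ≤ 2 * T → η * h ≤ volume.real (D ∩ Set.Icc x (x + h))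

/-- the `t ∈ D ∩ [T, 2 T]` at which the derivatives up to the order `m` are comparable, with the constant `c` -/
def comp (m : ℕ) (c : ℝ) (D : Set ℝ) (T : ℝ) : Set ℝ :=
  {t : ℝ | t ∈ D ∧ T ≤ t ∧ t ≤ 2 * T ∧ ∀ j : ℕ, j ≤ m →
    c * (Real.log T ^ j * |Z t|) ≤ |iteratedDeriv j Z t| ∧ c * |iteratedDeriv j Z t| ≤ Real.log T ^ j * |Z t|}

/-- the sum `B` of the exponents `b_0, ..., b_m` -/
noncomputable def tot (m : ℕ) (b : ℕ → ℝ) : ℝ := ∑ j ∈ Finset.range (m + 1), b j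

/-- the exponent `B ^ 2 / 4 + ∑ j b_j` -/
noncomputable def expo (m : ℕ) (b : ℕ → ℝ) : ℝ := tot m b ^ 2 / 4 + ∑ j ∈ Finset.range (m + 1), j * b j

/-- the integral of `∏_{j ≤ m} |Z^(j)| ^ b_j` over `D ∩ [T, 2 T]`, in `[0, ∞]` -/
noncomputable def joint (m : ℕ) (b : ℕ → ℝ) (D : Set ℝ) (T : ℝ) : ENNReal :=
  ∫⁻ t in D ∩ Set.Icc T (2 * T), ENNReal.ofReal (∏ j ∈ Finset.range (m + 1), |iteratedDeriv j Z t| ^ b j)

/-- see the header -/
theorem result (m : ℕ) :
    -- the derivatives are comparable on a set that carries a positive proportion of the moment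
    (∀ k a η : ℝ, 0 < k → k ≤ 2 → 0 < a → 0 < η → ∃ c : ℝ, 0 < c ∧ ∀ᶠ T : ℝ in atTop, ∀ D : Set ℝ,
      MeasurableSet D → Spread η (a / Real.log T) T D →
      ENNReal.ofReal (c * (T * Real.log T ^ (k ^ 2))) ≤
        ∫⁻ t in comp m c D T, ENNReal.ofReal (‖riemannZeta (1 / 2 + I * t)‖ ^ (2 * k))) ∧
    -- joint moments from below, all real exponents
    (∀ b : ℕ → ℝ, 0 < tot m b → tot m b ≤ 4 → ∀ a η : ℝ, 0 < a → 0 < η → ∃ c : ℝ, 0 < c ∧ ∀ᶠ T : ℝ in atTop,
      ∀ D : Set ℝ, MeasurableSet D → Spread η (a / Real.log T) T D →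
      ENNReal.ofReal (c * (T * Real.log T ^ expo m b)) ≤ joint m b D T) ∧
    -- joint moments from above
    (∀ b : ℕ → ℝ, (∀ j : ℕ, j ≤ m → 0 ≤ b j) → 0 < tot m b → tot m b ≤ 4 → ∃ C : ℝ, 0 < C ∧ ∀ᶠ T : ℝ in atTop,
      joint m b Set.univ T ≤ ENNReal.ofReal (C * (T * Real.log T ^ expo m b))) := by
  refine ⟨fun k a η hk hk2 ha hη => ?_, fun b h0 h4 a η ha hη => ?_, fun b hb h0 h4 => ?_⟩
  · obtain ⟨c, hc, h⟩ := Pool.Agent.X117.MS.deriv_mass hk hk2 m ha hη
    refine ⟨c, hc, ?_⟩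
    filter_upwards [h] with T hT
    intro D hD hDd
    have h1 := hT D hD hDd
    simp_rw [Pool.Agent.X117.HZ.abs_Z] at h1
    exact h1
  · exact Pool.Agent.X117.MS.joint_low h0 h4 ha hη
  · exact Pool.Agent.X117.MS.joint_upper hb h0 h4

end Pool.Agent.Results.MP_af3d17_nt.ComparableDerivatives
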