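import Pool.Agent.X284.GP.Main
import Pool.Agent.TH803.UC.Sets

/-!
# Most gaps between consecutive ordinates of zeta zeros are not small

Let `0 < γ_1 ≤ γ_2 ≤ ...` be the ordinates of the nontrivial zeros of zeta in the upper half plane,
repeated according to multiplicity.  The question is how small `γ_{n+1} - γ_n` can be, measured as a
power of `n`, for infinitely many `n`.  We prove, without any hypothesis, that the gaps are of the
size of the mean gap for more than two thirds of all `n`: there is a `κ > 0` such that for every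
`p < 2 - c + κ`, `c = 1/2 + cot(1/√2)/√2` (`2 - c ≥ 0.6725`), there is an `a > 0` with
`γ_{n+1} - γ_n ≥ a / log n` for at least `p N` of the `n ≤ N`, for all large `N`.  In particular, for
every `ε > 0` the inequality `log (γ_{n+1} - γ_n) / log n ≥ -ε` holds for at least 67.25 per cent of
all `n`; the indices with `γ_{n+1} - γ_n < n^(-ε)`, which include those with `γ_{n+1} = γ_n` (multiple
zeros, and the zeros off the critical line), are less than 32.75 per cent.

The zeros that are simple, on the critical line and at distance at least `δ / log T` from all others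
are counted by the starting theorem `TH803CL.isoS_main`.  Zeros off the line may have nearly the same
ordinates as these; so the gap that follows such a zero may be small.  But between two consecutive
ones of these zeros the gaps add up to at least `δ / log T`, and there are few zeros in between on
average.
-/

set_option autoImplicit false

open Filter Topology

namespace Pool.Agent.Results.MP_af3d17_nt.LargeGapsMostIndices

/-- multiplicity of `s` as a zero of the Riemann zeta function (order of vanishing at `s`) -/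
noncomputable def zmult (s : ℂ) : ℕ := analyticOrderNatAt riemannZeta s

/-- the number of nontrivial zeros of `ζ` with ordinate in `(0, t]`, with multiplicity -/
noncomputable def NZ (t : ℝ) : ℕ :=
  ∑ᶠ s ∈ {s : ℂ | riemannZeta s = 0 ∧ 0 < s.re ∧ s.re < 1 ∧ 0 < s.im ∧ s.im ≤ t}, zmult s

/-- for `n ≥ 1`: the `n`-th positive ordinate `γ n` of a nontrivial zero of `ζ`, the ordinates being
listed in nondecreasing order and repeated according to multiplicity -/
noncomputable def γ (n : ℕ) : ℝ := sInf {t : ℝ | n ≤ NZ t}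

/-- the constant `c = 1/2 + cot(1/√2)/√2` (Montgomery and Taylor) -/
noncomputable def c : ℝ := 1 / 2 + Real.cot (1 / Real.sqrt 2) / Real.sqrt 2

lemma c_eq : c = H295SI.cc 1 := rfl

lemma γ_eq : γ = SG.ord := rfl

lemma cnt_le {a : ℝ} (ha : 0 < a) (N : ℕ) : Pool.Agent.X284.GP.cnt a N ≤
    {n : ℕ | 2 ≤ n ∧ n ≤ N ∧ a / 2 / Real.log n ≤ γ (n + 1) - γ n}.ncard + 1 := by
  classical
  have hfin : {n : ℕ | 2 ≤ n ∧ n ≤ N ∧ a / 2 / Real.log n ≤ γ (n + 1) - γ n}.Finite :=
    (Set.finite_Icc 2 N).subset fun n hn => ⟨hn.1, hn.2.1⟩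
  rw [Set.ncard_eq_toFinset_card _ hfin]
  unfold Pool.Agent.X284.GP.cnt
  have hsub : (Finset.Icc 1 N).filter (fun n : ℕ => a / Real.log ((n : ℝ) + 1) ≤
      Pool.Agent.X284.GP.gap n) ⊆
      insert 1 hfin.toFinset := by
    intro n hn
    rw [Finset.mem_filter, Finset.mem_Icc] at hn
    rw [Finset.mem_insert, Set.Finite.mem_toFinset]
    by_cases h1 : n = 1
    · exact Or.inl h1
    · right
      have h2 : 2 ≤ n := by omega
      refine ⟨h2, hn.1.2, le_trans ?_ hn.2⟩
      have h2r : (2 : ℝ) ≤ n := by exact_mod_cast h2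
      have hl : 0 < Real.log n := Real.log_pos (by linarith)
      have hl1 : 0 < Real.log (n + 1) := Real.log_pos (by linarith)
      have h3 : Real.log ((n : ℝ) + 1) ≤ 2 * Real.log n := by
        rw [← Real.log_rpow (by linarith)]
        refine Real.log_le_log (by linarith) ?_
        rw [Real.rpow_two]
        nlinarith
      rw [div_div]
      exact div_le_div_of_nonneg_left ha.le hl1 h3
  exact (Finset.card_le_card hsub).trans (Finset.card_insert_le _ _)

theorem prop_aux : ∃ κ : ℝ, 0 < κ ∧ ∀ p : ℝ, p < 2 - c + κ → ∃ a : ℝ, 0 < a ∧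
    ∀ᶠ N : ℕ in atTop, p * N ≤
      ({n : ℕ | 2 ≤ n ∧ n ≤ N ∧ a / Real.log n ≤ γ (n + 1) - γ n}.ncard : ℝ) := by
  obtain ⟨κ, hκ, h⟩ := Pool.Agent.X284.GP.main
  refine ⟨κ, hκ, fun p hp => ?_⟩
  have hc : (0 : ℝ) < 2 - H295SI.cc 1 := by
    have h : H295SI.cc 1 ≤ 1.3275 := TH803UC.cc_lt
    linarith
  rw [c_eq] at hp
  set q : ℝ := max ((p + (2 - H295SI.cc 1 + κ)) / 2) 0 with hq
  have hq0 : 0 ≤ q := le_max_right _ _
  have hq1 : q < 2 - H295SI.cc 1 + κ := max_lt (by linarith) (by linarith)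
  have hpq : p < q := lt_of_lt_of_le (by linarith) (le_max_left _ _)
  obtain ⟨a, ha, hN⟩ := h q hq0 hq1
  refine ⟨a / 2, by positivity, ?_⟩
  have hlarge : ∀ᶠ N : ℕ in atTop, 1 / (q - p) ≤ (N : ℝ) :=
    (tendsto_natCast_atTop_atTop (R := ℝ)).eventually_ge_atTop _
  filter_upwards [hN, hlarge] with N h1 h2
  have h3 : (Pool.Agent.X284.GP.cnt a N : ℝ) ≤
      ({n : ℕ | 2 ≤ n ∧ n ≤ N ∧ a / 2 / Real.log n ≤ γ (n + 1) - γ n}.ncard : ℝ) + 1 := by
    exact_mod_cast cnt_le ha N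
  have h4 : 1 ≤ (q - p) * N := by
    rw [div_le_iff₀ (by linarith)] at h2
    linarith
  linarith

/-- **Main theorem.** -/
theorem result :
    -- gaps of the size of the mean gap
    (∃ κ : ℝ, 0 < κ ∧ ∀ p : ℝ, p < 2 - c + κ → ∃ a : ℝ, 0 < a ∧
      ∀ᶠ N : ℕ in atTop, p * N ≤
        ({n : ℕ | 2 ≤ n ∧ n ≤ N ∧ a / Real.log n ≤ γ (n + 1) - γ n}.ncard : ℝ)) ∧
    0.6725 ≤ 2 - c ∧
    -- the size of the gaps as a power of `n`
    ∀ ε : ℝ, 0 < ε → ∀ᶠ N : ℕ in atTop, 0.6725 * (N : ℝ) ≤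
      ({n : ℕ | 2 ≤ n ∧ n ≤ N ∧ (n : ℝ) ^ (-ε) ≤ γ (n + 1) - γ n}.ncard : ℝ) := by
  have hc : (0.6725 : ℝ) ≤ 2 - c := by
    have h : H295SI.cc 1 ≤ 1.3275 := TH803UC.cc_lt
    rw [c_eq]
    norm_num at h ⊢
    linarith
  refine ⟨prop_aux, hc, fun ε hε => ?_⟩
  obtain ⟨κ, hκ, h⟩ := prop_aux
  obtain ⟨a, ha, hN⟩ := h (0.6725 + κ / 2) (by linarith)
  -- `n ^ (-ε) ≤ a / log n` for large `n`
  have hlim : ∀ᶠ x : ℝ in atTop, x ^ (-ε) ≤ a / Real.log x := by
    have h1 : (fun x : ℝ => Real.log x) =o[atTop] fun x : ℝ => x ^ ε := isLittleO_log_rpow_atTop hε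
    have h2 := h1.bound ha
    filter_upwards [h2, eventually_gt_atTop 1] with x hx hx1
    have hx0 : 0 < x := by linarith
    have hl : 0 < Real.log x := Real.log_pos hx1
    rw [Real.norm_of_nonneg hl.le, Real.norm_of_nonneg (Real.rpow_nonneg hx0.le _)] at hx
    rw [Real.rpow_neg hx0.le, le_div_iff₀ hl, inv_mul_le_iff₀ (Real.rpow_pos_of_pos hx0 _)]
    linarith
  obtain ⟨n0, hn0⟩ := ((tendsto_natCast_atTop_atTop (R := ℝ)).eventually hlim).exists_forall_of_atTop
  have hlarge : ∀ᶠ N : ℕ in atTop, (n0 : ℝ) / (κ / 2) ≤ (N : ℝ) :=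
    (tendsto_natCast_atTop_atTop (R := ℝ)).eventually_ge_atTop _
  filter_upwards [hN, hlarge] with N h1 h2
  have hfin : {n : ℕ | 2 ≤ n ∧ n ≤ N ∧ (n : ℝ) ^ (-ε) ≤ γ (n + 1) - γ n}.Finite :=
    (Set.finite_Icc 2 N).subset fun n hn => ⟨hn.1, hn.2.1⟩
  have hsub : {n : ℕ | 2 ≤ n ∧ n ≤ N ∧ a / Real.log n ≤ γ (n + 1) - γ n} ⊆
      {n : ℕ | 2 ≤ n ∧ n ≤ N ∧ (n : ℝ) ^ (-ε) ≤ γ (n + 1) - γ n} ∪ Set.Iio n0 := by
    rintro n ⟨a1, a2, a3⟩
    by_cases hn : n < n0
    · exact Or.inr hn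
    · exact Or.inl ⟨a1, a2, (hn0 n (not_lt.1 hn)).trans a3⟩
  have h3 := (Set.ncard_le_ncard hsub (hfin.union (Set.finite_Iio n0))).trans (Set.ncard_union_le _ _)
  have h4 : (Set.Iio n0).ncard = n0 := by
    have e : (Set.Iio n0) = ((Finset.range n0 : Finset ℕ) : Set ℕ) := by
      ext x
      simp
    rw [e, Set.ncard_coe_finset, Finset.card_range]
  rw [h4] at h3
  have h5 : ({n : ℕ | 2 ≤ n ∧ n ≤ N ∧ a / Real.log n ≤ γ (n + 1) - γ n}.ncard : ℝ) ≤
      ({n : ℕ | 2 ≤ n ∧ n ≤ N ∧ (n : ℝ) ^ (-ε) ≤ γ (n + 1) - γ n}.ncard : ℝ) + n0 := by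
    exact_mod_cast h3
  have h6 : (n0 : ℝ) ≤ κ / 2 * N := by
    rw [div_le_iff₀ (by positivity)] at h2
    linarith
  linarith

end Pool.Agent.Results.MP_af3d17_nt.LargeGapsMostIndices
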