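import Pool.Agent.X117.Sup5
import Pool.Agent.X117.Rem2

/-!
# Zeros near the points at which zeta is large

Unconditionally, for `0 < k ≤ 2`: the moments of zeta on the critical line with the zeros at distance at most
`x / log T` divided out, and the moments weighted by `exp (B N)`, `N` the number of these zeros, are still of the order
of magnitude `T (log T) ^ (k ^ 2)` of the moments themselves, for all `x` and `B`; and the `t ∈ [T, 2 T]` with at least
`n` zeros at distance at most `x / log T` contribute at most `C (2 x / A) ^ (2 k n + 1) T (log T) ^ (k ^ 2)`, uniformly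
in `n ≥ 1` and `0 < x ≤ A / 2`. The last two bounds are extended to the derivatives of zeta.
-/

open Filter Topology Complex MeasureTheory

namespace Pool.Agent.Results.MP_af3d17_nt.ZerosUnderMomentMeasures

/-- the zeros of zeta at distance at most `x` from `1/2 + i t` -/
def nb (x t : ℝ) : Set ℂ := {z : ℂ | riemannZeta z = 0 ∧ ‖1 / 2 + I * t - z‖ ≤ x}

/-- their number, with multiplicity (`analyticOrderNatAt` is the order of the zero) -/
noncomputable def cnt (x t : ℝ) : ℕ := ∑ᶠ z ∈ nb x t, analyticOrderNatAt riemannZeta z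

/-- the product of `y / |1/2 + i t - z|` over the zeros `z` at distance at most `x` from `1/2 + i t`, with
multiplicity -/
noncomputable def prod (x y t : ℝ) : ℝ :=
  ∏ᶠ z ∈ nb x t, (y / ‖1 / 2 + I * t - z‖) ^ analyticOrderNatAt riemannZeta z

/-- the `t ∈ [T, 2 T]` with at least `n` zeros at distance at most `x / log T` from `1/2 + i t` -/
def near (n : ℕ) (x T : ℝ) : Set ℝ := {t : ℝ | T ≤ t ∧ t ≤ 2 * T ∧ n ≤ cnt (x / Real.log T) t}

/-- the sets in `nb` are finite when they are small and high enough -/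
theorem nb_finite {x t : ℝ} (hx : x ≤ 1 / 4) (ht : 1 ≤ t) : (nb x t).Finite :=
  Pool.Agent.X117.SZ.nb_fin hx ht

/-- the moments over `[T, 2 T]` -/
noncomputable def mom (k T : ℝ) : ENNReal :=
  ∫⁻ t in Set.Icc T (2 * T), ENNReal.ofReal (‖riemannZeta (1 / 2 + I * t)‖ ^ (2 * k))

/-- the moments are not smaller than the bounds -/
theorem mom_ge {k : ℝ} (hk : 0 < k) : ∃ c : ℝ, 0 < c ∧ ∀ᶠ T : ℝ in atTop,
    ENNReal.ofReal (c * (T * Real.log T ^ (k ^ 2))) ≤ mom k T := by
  obtain ⟨c, hc, h⟩ := Pool.Agent.X117.RM.low hk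
  refine ⟨c, hc, ?_⟩
  filter_upwards [h, eventually_ge_atTop (1 : ℝ)] with T hT hT1
  have hcont := Pool.Agent.X117.RM.F_cont hk
  have h5 : ∫⁻ t in Set.Ioc T (3 / 2 * T), ENNReal.ofReal (Pool.Agent.X117.RM.F k t) ≤ mom k T :=
    lintegral_mono_set fun t ht => ⟨ht.1.le, by linarith [ht.2]⟩
  refine le_trans ?_ h5
  rw [← ofReal_integral_eq_lintegral_ofReal ((hcont.integrableOn_Icc).mono_set Set.Ioc_subset_Icc_self)
    (Filter.Eventually.of_forall fun t => Pool.Agent.X117.RM.F_nonneg k t),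
    ← intervalIntegral.integral_of_le (by linarith)]
  exact ENNReal.ofReal_le_ofReal hT

/-- see the header -/
theorem result (k : ℝ) (hk : 0 < k) (hk2 : k ≤ 2) :
    -- the nearby zeros divided out
    (∀ x D : ℝ, 0 < x → 0 < D → ∃ C : ℝ, 0 < C ∧ ∀ᶠ T : ℝ in atTop,
      ∫⁻ t in Set.Icc T (2 * T), ENNReal.ofReal
        ((‖riemannZeta (1 / 2 + I * t)‖ * prod (x / Real.log T) (D * (x / Real.log T)) t) ^ (2 * k)) ≤
        ENNReal.ofReal (C * (T * Real.log T ^ (k ^ 2)))) ∧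
    -- exponential moments of the number of nearby zeros
    (∀ (j : ℕ) (x B : ℝ), 0 < x → ∃ C : ℝ, 0 < C ∧ ∀ᶠ T : ℝ in atTop,
      ∫⁻ t in Set.Icc T (2 * T), ENNReal.ofReal
        (‖iteratedDeriv j riemannZeta (1 / 2 + I * t)‖ ^ (2 * k) * Real.exp (B * cnt (x / Real.log T) t)) ≤
        ENNReal.ofReal (C * (T * Real.log T ^ (k ^ 2 + 2 * k * j)))) ∧
    -- the contribution of the `t` with `n` nearby zeros
    (∀ (j : ℕ) (A : ℝ), 1 ≤ A → ∃ C : ℝ, 0 < C ∧ ∀ᶠ T : ℝ in atTop, ∀ (n : ℕ) (x : ℝ), 1 ≤ n → 0 < x → 2 * x ≤ A →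
      ∫⁻ t in near n x T, ENNReal.ofReal (‖iteratedDeriv j riemannZeta (1 / 2 + I * t)‖ ^ (2 * k)) ≤
        ENNReal.ofReal (C * (2 * x / A) ^ (2 * k * (n - j) + 1) * (T * Real.log T ^ (k ^ 2 + 2 * k * j)))) ∧
    -- for comparison
    (∃ c : ℝ, 0 < c ∧ ∀ᶠ T : ℝ in atTop, ENNReal.ofReal (c * (T * Real.log T ^ (k ^ 2))) ≤ mom k T) :=
  ⟨fun _ _ hx hD => Pool.Agent.X117.SZ.divided hk hk2 hx hD,
    fun j _ B hx => Pool.Agent.X117.SZ.exp_cnt_deriv hk hk2 hx B j,
    fun j _ hA => Pool.Agent.X117.SZ.mass_near hk hk2 hA j,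
    mom_ge hk⟩

end Pool.Agent.Results.MP_af3d17_nt.ZerosUnderMomentMeasures
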